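import Mathlib

namespace Pool.Agent.Results.MP_188fab_co.Counter

open MvPolynomial

/-- The edges `{i, j}` of a graph on `Fin n`, written with `i < j`. -/
abbrev Edge {n : ℕ} (G : SimpleGraph (Fin n)) : Type :=
  {p : Fin n × Fin n // p.1 < p.2 ∧ G.Adj p.1 p.2}

/-- The generators `x_{ik} x_{jl} - x_{il} x_{jk}` of `J_{G,H}`. -/
noncomputable def gen (F : Type) [Field F] {n m : ℕ} (G : SimpleGraph (Fin n))
    (H : SimpleGraph (Fin m)) (e : Edge G × Edge H) : MvPolynomial (Fin n × Fin m) F :=
  X (e.1.1.1, e.2.1.1) * X (e.1.1.2, e.2.1.2) - X (e.1.1.1, e.2.1.2) * X (e.1.1.2, e.2.1.1)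

/-- The Jacobian matrix of the generators, over the rational function field. -/
noncomputable def jac (F : Type) [Field F] {n m : ℕ} (G : SimpleGraph (Fin n))
    (H : SimpleGraph (Fin m)) :
    Matrix (Edge G × Edge H) (Fin n × Fin m) (FractionRing (MvPolynomial (Fin n × Fin m) F)) :=
  fun e v => algebraMap _ _ (pderiv v (gen F G H e))

/-- The analytic spread: the Krull dimension of `⨁ I^t / 𝔪 I^t`, the Rees algebra of `I` modulo
the ideal generated by the variables. -/
noncomputable def spread {σ F : Type} [Field F] (I : Ideal (MvPolynomial σ F)) : WithBot ℕ∞ :=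
  ringKrullDim (reesAlgebra I ⧸
    (Ideal.span (Set.range X)).map (algebraMap (MvPolynomial σ F) (reesAlgebra I)))

open scoped LaurentPolynomial in
lemma spread_ge {σ ι F : Type} [Field F] [Finite ι] (g : ι → MvPolynomial σ F)
    (hg : ∀ i, (g i).IsHomogeneous 2) (hi : AlgebraicIndependent F g) :
    (Nat.card ι : WithBot ℕ∞) ≤ spread (Ideal.span (Set.range g)) := by
  let s : (MvPolynomial σ F) →ₐ[F] Polynomial (MvPolynomial σ F) :=
    aeval fun i => Polynomial.C (X i) * Polynomial.X
  have s0 : ∀ r, (s r).coeff 0 = C (constantCoeff r) := fun r => by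
    induction r using MvPolynomial.induction_on <;> simp_all [s]
  have s2 : ∀ i, s (g i) = Polynomial.C (g i) * Polynomial.X ^ 2 := fun i => by
    conv_lhs => rw [(g i).as_sum]
    conv_rhs => rw [(g i).as_sum]
    simp only [map_sum, Finset.sum_mul]
    refine Finset.sum_congr rfl fun d hd => ?_
    rw [← hg i (mem_support_iff.mp hd), monomial_eq]
    simp only [s, Finsupp.prod, Finsupp.weight_apply, Finsupp.sum, mul_pow, map_mul, map_prod,
      Finset.prod_mul_distrib, Finset.prod_pow_eq_pow_sum, mul_assoc, map_pow, aeval_X, aeval_C,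
      Pi.one_apply, smul_eq_mul, mul_one]
    rfl
  let τ : Polynomial (MvPolynomial σ F) →+* (MvPolynomial σ F)[T;T⁻¹] :=
    Polynomial.eval₂RingHom (Polynomial.toLaurent.comp s.toRingHom) (.T (-2))
  let A := (Algebra.adjoin F (Set.range g)).toSubring.comap Polynomial.constantCoeff
  have t0 : ∀ r, τ (algebraMap (MvPolynomial σ F) _ r) = (s r).toLaurent := fun r => by simp [τ]
  have t1 : ∀ i, τ (Polynomial.monomial 1 (g i)) = (Polynomial.C (g i)).toLaurent := fun i => by
    simp only [τ, Polynomial.coe_eval₂RingHom, Polynomial.eval₂_monomial, RingHom.comp_apply,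
      AlgHom.toRingHom_eq_coe, RingHom.coe_coe, s2, map_mul, Polynomial.toLaurent_X_pow, pow_one,
      mul_assoc, ← LaurentPolynomial.T_add]
    simp
  have a0 : ∀ r, s r ∈ A := fun r => by
    simp only [A, Subring.mem_comap, Polynomial.constantCoeff_apply, s0]
    exact Subalgebra.algebraMap_mem _ _
  have k : ∀ a : reesAlgebra (Ideal.span (Set.range g)), ∃ p ∈ A, p.toLaurent = τ a := by
    rintro ⟨a, hb⟩
    have ha := (adjoin_monomial_eq_reesAlgebra _).ge hb
    change τ a ∈ A.map Polynomial.toLaurent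
    clear hb
    induction ha using Algebra.adjoin_induction with
    | mem x h =>
      obtain ⟨r, hr, rfl⟩ := h
      induction hr using Submodule.span_induction with
      | mem _ h =>
        obtain ⟨i, rfl⟩ := h
        exact ⟨_, by simpa [A] using Algebra.subset_adjoin (Set.mem_range_self i), (t1 i).symm⟩
      | zero => simp
      | add _ _ _ _ a b => simpa using add_mem a b
      | smul c _ _ a =>
        rw [map_smul, Algebra.smul_def, map_mul, t0]
        exact mul_mem ⟨_, a0 c, rfl⟩ a
    | algebraMap r => exact ⟨_, a0 r, (t0 r).symm⟩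
    | add _ _ _ _ a b => simpa using add_mem a b
    | mul _ _ _ _ a b => simpa using mul_mem a b
  choose p p1 p2 using k
  have inj := Polynomial.toLaurent_injective (R := MvPolynomial σ F)
  let P : reesAlgebra (Ideal.span (Set.range g)) →+* Polynomial (MvPolynomial σ F) :=
    { toFun := p
      map_one' := inj (by simp [p2])
      map_zero' := inj (by simp [p2])
      map_mul' a b := inj (by simp [p2])
      map_add' a b := inj (by simp [p2]) }
  let π : reesAlgebra (Ideal.span (Set.range g)) →+* Algebra.adjoin F (Set.range g) :=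
    (Polynomial.constantCoeff.comp P).codRestrict (Algebra.adjoin F (Set.range g)) p1
  have q0 : ∀ r, (π (algebraMap (MvPolynomial σ F) _ r)).1 = C (constantCoeff r) := fun r => by
    rw [← s0, ← inj ((p2 (algebraMap (MvPolynomial σ F) _ r)).trans (t0 r))]; rfl
  have su : Function.Surjective π := by
    rintro ⟨x, hx⟩
    change _ ∈ π.range
    induction hx using Algebra.adjoin_induction with
    | mem x h =>
      obtain ⟨i, rfl⟩ := h
      refine ⟨⟨_, reesAlgebra.monomial_mem.mpr (show g i ∈ _ ^ 1 by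
        rw [pow_one]; exact Ideal.subset_span ⟨i, rfl⟩)⟩, Subtype.ext ?_⟩
      change (p _).coeff 0 = _
      rw [inj ((p2 _).trans (t1 i)), Polynomial.coeff_C_zero]
    | algebraMap r => exact ⟨algebraMap (MvPolynomial σ F) _ (C r), Subtype.ext (by simp [q0])⟩
    | add _ _ _ _ a b => exact add_mem a b
    | mul _ _ _ _ a b => exact mul_mem a b
  refine le_trans ?_ (ringKrullDim_le_of_surjective (Ideal.Quotient.lift _ π ?_)
    (Ideal.Quotient.lift_surjective_of_surjective _ _ su))
  · rw [← ringKrullDim_eq_of_ringEquiv hi.aevalEquiv.toRingEquiv,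
      MvPolynomial.ringKrullDim_of_isNoetherianRing, ringKrullDim_eq_zero_of_field, zero_add]
  · change _ ≤ RingHom.ker π
    rw [Ideal.map_le_iff_le_comap, Ideal.span_le]
    rintro _ ⟨i, rfl⟩
    exact Subtype.ext (by simp [q0])

lemma hom (F : Type) [Field F] {n m : ℕ} (G : SimpleGraph (Fin n)) (H : SimpleGraph (Fin m))
    (e : Edge G × Edge H) : (gen F G H e).IsHomogeneous 2 :=
  ((isHomogeneous_X _ _).mul (isHomogeneous_X _ _)).sub
    ((isHomogeneous_X _ _).mul (isHomogeneous_X _ _))

lemma indep (F : Type) [Field F] :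
    AlgebraicIndependent F (gen F (⊤ : SimpleGraph (Fin 3)) (⊤ : SimpleGraph (Fin 3))) := by
  set A := Algebra.adjoin F (Set.range (gen F (⊤ : SimpleGraph (Fin 3)) (⊤ : SimpleGraph (Fin 3))))
  let N : Matrix (Fin 3) (Fin 3) (MvPolynomial (Fin 3 × Fin 3) F) := fun i k => X (i, k)
  have g : ∀ i j k l, i < j → k < l → N i k * N j l - N i l * N j k ∈ A := fun i j k l a b =>
    Algebra.subset_adjoin ⟨(⟨(i, j), a, a.ne⟩, ⟨(k, l), b, b.ne⟩), rfl⟩
  have a : ∀ i k, N.adjugate i k ∈ A := by
    intro i k
    rw [Matrix.adjugate_fin_succ_eq_det_submatrix, Matrix.det_fin_two]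
    exact mul_mem (pow_mem (neg_mem (one_mem _)) _)
      (g _ _ _ _ (Fin.strictMono_succAbove _ (by decide)) (Fin.strictMono_succAbove _ (by decide)))
  have al : ∀ x ∈ A, IsAlgebraic A x := fun x hx => isAlgebraic_algebraMap (⟨x, hx⟩ : A)
  have d : IsAlgebraic A N.det := .of_pow two_pos (al _ (by
    rw [show N.det ^ 2 = N.adjugate.det by simp [Matrix.det_adjugate], Matrix.det_fin_three]
    have m := fun i k j l u v => mul_mem (mul_mem (a i k) (a j l)) (a u v)
    exact sub_mem (add_mem (add_mem (sub_mem (sub_mem (m 0 0 1 1 2 2) (m 0 0 1 2 2 1))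
      (m 0 1 1 0 2 2)) (m 0 1 1 2 2 0)) (m 0 2 1 0 2 1)) (m 0 2 1 1 2 0)))
  have x : ∀ v, IsAlgebraic A (X v : MvPolynomial (Fin 3 × Fin 3) F) := fun v =>
    .of_mul (mem_nonZeroDivisors_of_ne_zero (Matrix.det_mvPolynomialX_ne_zero (Fin 3) F)) d (al _ (by
      have := congrFun (congrFun (N.adjugate_adjugate (by simp)) v.1) v.2
      rw [Matrix.adjugate_fin_succ_eq_det_submatrix, Matrix.det_fin_two] at this
      simp only [Fintype.card_fin, Nat.reduceSub, pow_one, Matrix.smul_apply, smul_eq_mul] at this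
      exact this ▸ mul_mem (pow_mem (neg_mem (one_mem _)) _)
        (sub_mem (mul_mem (a _ _) (a _ _)) (mul_mem (a _ _) (a _ _)))))
  have : Algebra.IsAlgebraic A (MvPolynomial (Fin 3 × Fin 3) F) := ⟨fun r => by
    induction r using MvPolynomial.induction_on with
    | C c => exact al _ (A.algebraMap_mem c)
    | add _ _ a b => exact a.add b
    | mul_X _ v a => exact a.mul (x v)⟩
  refine (Algebra.IsAlgebraic.isTranscendenceBasis_of_le_trdeg_of_finite F _ ?_).1
  rw [MvPolynomial.trdeg_of_isDomain, Cardinal.lift_id, Cardinal.mk_fintype, Cardinal.mk_fintype]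
  exact Nat.cast_le.mpr (by decide)

theorem result (F : Type) [Field F] [CharP F 2] :
    ((jac F (⊤ : SimpleGraph (Fin 3)) (⊤ : SimpleGraph (Fin 3))).rank : WithBot ℕ∞) <
      spread (Ideal.span (Set.range (gen F (⊤ : SimpleGraph (Fin 3)) (⊤ : SimpleGraph (Fin 3))))) := by
  refine lt_of_lt_of_le ?_ (spread_ge _ (hom F _ _) (indep F))
  have h := (jac F (⊤ : SimpleGraph (Fin 3)) (⊤ : SimpleGraph (Fin 3))).mulVecLin
    |>.finrank_range_add_finrank_ker
  have k := (Module.finrank_pos_iff_exists_ne_zero (R := FractionRing (MvPolynomial (Fin 3 × Fin 3) F))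
    (M := LinearMap.ker (jac F (⊤ : SimpleGraph (Fin 3)) (⊤ : SimpleGraph (Fin 3))).mulVecLin)).mpr
    ⟨⟨fun v => algebraMap _ _ (X v : MvPolynomial (Fin 3 × Fin 3) F), funext fun e => by
      have := (hom F _ _ e).sum_X_mul_pderiv
      simp only [Matrix.mulVecLin_apply, Matrix.mulVec, dotProduct, jac, ← map_mul, ← map_sum,
        mul_comm (pderiv _ _), this, two_nsmul, CharTwo.add_self_eq_zero, map_zero, Pi.zero_apply]⟩,
      fun c => by simpa using congrFun (Subtype.ext_iff.mp c) (0, 0)⟩
  rw [Module.finrank_fintype_fun_eq_card] at h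
  rw [Nat.card_eq_fintype_card, Matrix.rank, Nat.cast_lt,
    show Fintype.card (Edge ⊤ × Edge ⊤) = Fintype.card (Fin 3 × Fin 3) by decide]
  omega

end Pool.Agent.Results.MP_188fab_co.Counter
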